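import Pool.Agent.Helper13.Sof.Goals

/-!
# The element `dg(t) e23(1) dg(t)⁻¹` is not in `K`
-/

namespace Pool.Agent.Helper21.Sof

open Pool.Agent.Helper13.Sof Polynomial Matrix

/-- Matrices dominated by the `(0,0)` entry. -/
def Dm {p : ℕ} (g : Lam p) : Prop :=
  (∀ i j, (g.1 i j).degree ≤ (g.1 0 0).degree) ∧
    ∀ i, i ≠ 0 → (g.1 i 0).degree < (g.1 0 0).degree

theorem Dm.ne_bot {p : ℕ} {g : Lam p} (h : Dm g) : (g.1 0 0).degree ≠ ⊥ := by
  have := h.2 1 (by decide)
  exact ne_bot_of_gt this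

theorem dm_mul {p : ℕ} [Fact p.Prime] {g h : Lam p} (hg : Dm g) (hh : Dm h) : Dm (g * h) := by
  have hle : ∀ i j k l m n, (g.1 i j).degree ≤ (g.1 0 0).degree →
      (h.1 k l).degree ≤ (h.1 0 0).degree → m = i → n = l → j = k →
      (g.1 i j * h.1 k l).degree ≤ (g.1 0 0).degree + (h.1 0 0).degree := by
    intro i j k l m n h1 h2 _ _ _
    rw [degree_mul]
    exact add_le_add h1 h2
  have hlt : ∀ i j k l, (g.1 i j).degree ≤ (g.1 0 0).degree →
      (h.1 k l).degree < (h.1 0 0).degree →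
      (g.1 i j * h.1 k l).degree < (g.1 0 0).degree + (h.1 0 0).degree := by
    intro i j k l h1 h2
    rw [degree_mul]
    refine lt_of_le_of_lt (add_le_add_left h1 _) ?_
    exact WithBot.add_lt_add_left hg.ne_bot h2
  have hlt' : ∀ i j k l, (g.1 i j).degree < (g.1 0 0).degree →
      (h.1 k l).degree ≤ (h.1 0 0).degree →
      (g.1 i j * h.1 k l).degree < (g.1 0 0).degree + (h.1 0 0).degree := by
    intro i j k l h1 h2
    rw [degree_mul]
    refine lt_of_le_of_lt (add_le_add_right h2 _) ?_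
    exact WithBot.add_lt_add_right hh.ne_bot h1
  have hent : ∀ i j, (g * h).1 i j =
      g.1 i 0 * h.1 0 j + (g.1 i 1 * h.1 1 j + g.1 i 2 * h.1 2 j) := by
    intro i j
    have : (g * h).1 = g.1 * h.1 := rfl
    rw [this, Matrix.mul_apply, Fin.sum_univ_three, add_assoc]
  have h00 : ((g * h).1 0 0).degree = (g.1 0 0).degree + (h.1 0 0).degree := by
    rw [hent, degree_add_eq_left_of_degree_lt, degree_mul]
    rw [degree_mul]
    refine lt_of_le_of_lt (degree_add_le _ _) (max_lt ?_ ?_)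
    · exact hlt _ _ _ _ (hg.1 _ _) (hh.2 _ (by decide))
    · exact hlt _ _ _ _ (hg.1 _ _) (hh.2 _ (by decide))
  refine ⟨fun i j => ?_, fun i hi => ?_⟩
  · rw [h00, hent]
    refine (degree_add_le _ _).trans (max_le ?_ ((degree_add_le _ _).trans (max_le ?_ ?_)))
    · exact hle _ _ _ _ _ _ (hg.1 _ _) (hh.1 _ _) rfl rfl rfl
    · exact hle _ _ _ _ _ _ (hg.1 _ _) (hh.1 _ _) rfl rfl rfl
    · exact hle _ _ _ _ _ _ (hg.1 _ _) (hh.1 _ _) rfl rfl rfl
  · rw [h00, hent]
    refine lt_of_le_of_lt (degree_add_le _ _) (max_lt ?_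
      (lt_of_le_of_lt (degree_add_le _ _) (max_lt ?_ ?_)))
    · exact hlt' _ _ _ _ (hg.2 _ hi) (hh.1 _ _)
    · exact hlt _ _ _ _ (hg.1 _ _) (hh.2 _ (by decide))
    · exact hlt _ _ _ _ (hg.1 _ _) (hh.2 _ (by decide))

theorem dm_one {p : ℕ} [Fact p.Prime] : Dm (1 : Lam p) := by
  refine ⟨fun i j => ?_, fun i hi => ?_⟩
  · have h1 : (1 : Lam p).1 = 1 := rfl
    rw [h1, Matrix.one_apply, Matrix.one_apply_eq]
    split_ifs
    · exact le_rfl
    · simp
  · have h1 : (1 : Lam p).1 = 1 := rfl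
    rw [h1, Matrix.one_apply_ne hi, Matrix.one_apply_eq]
    simp

theorem dm_beta {p : ℕ} [Fact p.Prime] : Dm (lβ p) := by
  have h00 : (lβ p).1 0 0 = 1 := by
    simp [lβ, el, Matrix.transvection, Matrix.single]
  refine ⟨fun i j => ?_, fun i hi => ?_⟩
  · rw [h00]
    fin_cases i <;> fin_cases j <;> simp [lβ, el, Matrix.transvection, Matrix.single]
  · rw [h00]
    fin_cases i
    · exact absurd rfl hi
    · simp [lβ, el, Matrix.transvection, Matrix.single]
    · simp [lβ, el, Matrix.transvection, Matrix.single]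

theorem lt_entry {p : ℕ} : (lt p).1 = !![1 + X, 0, X; 0, 1, 0; 1, 0, 1] := by
  have : (lt p).1 = (el 0 2 (by decide) X : Lam p).1 * (el 2 0 (by decide) 1 : Lam p).1 := rfl
  rw [this]
  ext i j
  rw [Matrix.mul_apply, Fin.sum_univ_three]
  fin_cases i <;> fin_cases j <;>
    simp [el, Matrix.transvection, Matrix.single]

theorem alt_entry {p : ℕ} : (lα p * lt p).1 = !![1 + X, X, X; 0, 1, 0; 1, 0, 1] := by
  have : (lα p * lt p).1 = (lα p).1 * (lt p).1 := rfl
  rw [this, lt_entry]
  ext i j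
  rw [Matrix.mul_apply, Fin.sum_univ_three]
  fin_cases i <;> fin_cases j <;>
    simp [lα, el, Matrix.transvection, Matrix.single]

theorem deg_one_add_X {p : ℕ} [Fact p.Prime] : (1 + X : (ZMod p)[X]).degree = 1 := by
  rw [add_comm]
  have := degree_X_add_C (1 : ZMod p)
  rwa [map_one] at this

theorem dm_t {p : ℕ} [Fact p.Prime] : Dm (lt p) := by
  have hd := deg_one_add_X (p := p)
  have h01 : (0 : WithBot ℕ) ≤ 1 := by decide
  have h01' : (0 : WithBot ℕ) < 1 := by decide
  refine ⟨fun i j => ?_, fun i hi => ?_⟩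
  · rw [lt_entry]
    fin_cases i <;> fin_cases j <;> simp [hd]
  · rw [lt_entry]
    fin_cases i
    · exact absurd rfl hi
    · simp [hd]
    · simp [hd]

theorem dm_at {p : ℕ} [Fact p.Prime] : Dm (lα p * lt p) := by
  have hd := deg_one_add_X (p := p)
  refine ⟨fun i j => ?_, fun i hi => ?_⟩
  · rw [alt_entry]
    fin_cases i <;> fin_cases j <;> simp [hd]
  · rw [alt_entry]
    fin_cases i
    · exact absurd rfl hi
    · simp [hd]
    · simp [hd]

theorem not_dm_tinv {p : ℕ} [Fact p.Prime] : ¬ Dm (lt p)⁻¹ := by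
  intro h
  have h1 : (lt p)⁻¹.1 = Matrix.adjugate (lt p).1 := by
    rw [Matrix.SpecialLinearGroup.coe_inv]
  have h2 := h.1 0 2
  rw [h1, lt_entry, Matrix.adjugate_fin_three] at h2
  simp at h2
  exact absurd h2 (by decide)

/-- Elements of the group algebra whose support consists of dominated matrices. -/
def Sb {p : ℕ} (r : Rng p) : Prop := ∀ g ∈ r.coeff.support, Dm g

theorem sb_zero {p : ℕ} : Sb (0 : Rng p) := by
  intro g hg
  simp at hg

theorem sb_one {p : ℕ} [Fact p.Prime] : Sb (1 : Rng p) := by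
  intro g hg
  have h1 : (1 : Rng p).coeff = Finsupp.single 1 1 := rfl
  rw [h1] at hg
  have := Finsupp.support_single_subset hg
  rw [Finset.mem_singleton] at this
  rw [this]
  exact dm_one

theorem sb_add {p : ℕ} {r s : Rng p} (hr : Sb r) (hs : Sb s) : Sb (r + s) := by
  classical
  intro g hg
  rw [MonoidAlgebra.coeff_add] at hg
  have := Finsupp.support_add hg
  rw [Finset.mem_union] at this
  rcases this with h | h
  · exact hr g h
  · exact hs g h

theorem sb_neg {p : ℕ} {r : Rng p} (hr : Sb r) : Sb (-r) := by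
  intro g hg
  apply hr g
  have h1 : (-r).coeff = -r.coeff := rfl
  rwa [h1, Finsupp.support_neg] at hg

theorem sb_mul {p : ℕ} [Fact p.Prime] {r s : Rng p} (hr : Sb r) (hs : Sb s) : Sb (r * s) := by
  classical
  intro g hg
  have := MonoidAlgebra.support_coeff_mul_subset r s hg
  rw [Finset.mem_mul] at this
  obtain ⟨a, ha, b, hb, rfl⟩ := this
  exact dm_mul (hr a ha) (hs b hb)

theorem sb_of {p : ℕ} {g : Lam p} (hg : Dm g) : Sb (MonoidAlgebra.of (ZMod p) (Lam p) g) := by
  intro h hh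
  have : (MonoidAlgebra.of (ZMod p) (Lam p) g).coeff = Finsupp.single g 1 := rfl
  rw [this] at hh
  have := Finsupp.support_single_subset hh
  rw [Finset.mem_singleton] at this
  rw [this]
  exact hg

theorem sb_sum {p : ℕ} {ι : Type} (s : Finset ι) (f : ι → Rng p) (h : ∀ i ∈ s, Sb (f i)) :
    Sb (∑ i ∈ s, f i) := by
  classical
  induction s using Finset.induction_on with
  | empty => simpa using sb_zero
  | insert a s ha ih =>
    rw [Finset.sum_insert ha]
    exact sb_add (h a (Finset.mem_insert_self _ _))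
      (ih fun i hi => h i (Finset.mem_insert_of_mem hi))

/-- The subgroup of matrices with entries in the subring `Sb`. -/
def HH (p : ℕ) [Fact p.Prime] : Subgroup (GG p) where
  carrier := {g | (∀ i j, Sb (g.val i j)) ∧ ∀ i j, Sb (g.inv i j)}
  mul_mem' := by
    rintro a b ⟨ha, ha'⟩ ⟨hb, hb'⟩
    refine ⟨fun i j => ?_, fun i j => ?_⟩
    · have : (a * b).val = a.val * b.val := rfl
      rw [this, Matrix.mul_apply]
      exact sb_sum _ _ fun k _ => sb_mul (ha _ _) (hb _ _)
    · have : (a * b).inv = b.inv * a.inv := rfl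
      rw [this, Matrix.mul_apply]
      exact sb_sum _ _ fun k _ => sb_mul (hb' _ _) (ha' _ _)
  one_mem' := by
    have key : ∀ i j : Fin 4, Sb ((1 : Matrix (Fin 4) (Fin 4) (Rng p)) i j) := by
      intro i j
      rw [Matrix.one_apply]
      split_ifs
      · exact sb_one
      · exact sb_zero
    exact ⟨key, key⟩
  inv_mem' := by
    rintro a ⟨ha, ha'⟩
    exact ⟨ha', ha⟩

theorem eu_mem {p : ℕ} [Fact p.Prime] (i j : Fin 4) (h : i ≠ j) (c : Rng p) (hc : Sb c) :
    eu i j h c ∈ HH p := by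
  have key : ∀ c : Rng p, Sb c → ∀ k l : Fin 4,
      Sb ((1 + Matrix.single i j c : Matrix (Fin 4) (Fin 4) (Rng p)) k l) := by
    intro c hc k l
    rw [Matrix.add_apply, Matrix.one_apply, Matrix.single_apply]
    refine sb_add ?_ ?_
    · split_ifs
      · exact sb_one
      · exact sb_zero
    · split_ifs
      · exact hc
      · exact sb_zero
  exact ⟨key c hc, key (-c) (sb_neg hc)⟩

theorem kfam_mem {p : ℕ} [Fact p.Prime] (j : Fin 6) : kfam p j ∈ HH p := by
  fin_cases j
  · exact eu_mem 0 1 (by decide) 1 sb_one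
  · exact eu_mem 1 2 (by decide) 1 sb_one
  · exact eu_mem 2 3 (by decide) 1 sb_one
  · exact eu_mem 2 0 (by decide) _ (sb_of dm_beta)
  · exact eu_mem 2 0 (by decide) _ (sb_of dm_t)
  · exact eu_mem 2 0 (by decide) _ (sb_of dm_at)

theorem algNot : AlgNot := by
  intro p _ hmem
  have hle : Subgroup.closure (Set.range (kfam p)) ≤ HH p := by
    rw [Subgroup.closure_le]
    rintro _ ⟨j, rfl⟩
    exact kfam_mem j
  have h := (hle hmem).1 2 3
  have hval : ((ufam p 1)⁻¹ * kfam p 2 * ufam p 1).val 2 3 =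
      MonoidAlgebra.of (ZMod p) (Lam p) (lt p)⁻¹ := by
    have e1 : ((ufam p 1)⁻¹ * kfam p 2 * ufam p 1).val =
        (ufam p 1).inv * (kfam p 2).val * (ufam p 1).val := rfl
    have e2 : (ufam p 1).inv = Matrix.diagonal
        (fun i : Fin 4 => if i = 3 then MonoidAlgebra.of (ZMod p) (Lam p) (lt p)⁻¹⁻¹ else 1) := rfl
    have e3 : (ufam p 1).val = Matrix.diagonal
        (fun i : Fin 4 => if i = 3 then MonoidAlgebra.of (ZMod p) (Lam p) (lt p)⁻¹ else 1) := rfl
    have e4 : (kfam p 2).val = 1 + Matrix.single 2 3 1 := rfl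
    rw [e1, e2, e3, e4, Matrix.mul_diagonal, Matrix.diagonal_mul, Matrix.add_apply,
      Matrix.one_apply_ne (by decide), Matrix.single_apply_same]
    simp
  rw [hval] at h
  apply not_dm_tinv (p := p)
  apply h
  have : (MonoidAlgebra.of (ZMod p) (Lam p) (lt p)⁻¹).coeff = Finsupp.single (lt p)⁻¹ 1 := rfl
  rw [this, Finsupp.mem_support_iff, Finsupp.single_eq_same]
  exact one_ne_zero

end Pool.Agent.Helper21.Sof
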